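import Pool.Agent.Lib_helper1.G5T.Defs

/-!
# MP_022ed3_co, triangular hull: the hull polygon of a member `T` of the family `F`
-/

set_option autoImplicit false

namespace Pool.Agent.G5.Tri

open Pool.Agent.G5.Lower Pool.Agent.G5.Planar Pool.Agent.G5.Core Pool.Agent.G5.Quad
  Pool.Agent.G5.Frame

/-- `p q` is a hull edge of `T`, `T` on the left -/
structure Edge (s : ℝ) (T : Finset (ℝ × ℝ)) (p q : ℝ × ℝ) : Prop where
  hp : p ∈ T
  hq : q ∈ T
  hpq : p ≠ q
  left : ∀ t ∈ T, t ≠ p → t ≠ q → 0 < D s p q t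

section edge

variable {s : ℝ} {T : Finset (ℝ × ℝ)} {p q r z : ℝ × ℝ}

lemma Edge.refl (h : Edge s T p q) : Edge (-s) T q p :=
  ⟨h.hq, h.hp, h.hpq.symm, fun t ht h1 h2 => by
    have := h.left t ht h2 h1
    rw [D_neg, D_swap]; linarith⟩

lemma Edge.ext1 (h : Edge s T p q) : ExtP T p := edge_ext h.hp h.hq h.hpq h.left
lemma Edge.ext2 (h : Edge s T p q) : ExtP T q := edge_ext' h.hp h.hq h.hpq h.left

lemma Edge.uniq (h : Edge s T p q) (h' : Edge s T p r) : q = r := by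
  by_contra hne
  have h1 := h.left r h'.hq h'.hpq.symm (Ne.symm hne)
  have h2 := h'.left q h.hq h.hpq.symm hne
  rw [D_swap'] at h2
  linarith

lemma Edge.uniq' (h : Edge s T q p) (h' : Edge s T r p) : q = r :=
  h.refl.uniq h'.refl

lemma Edge.next (h : Edge s T p q) (hg : Gen T) (hs : s ≠ 0) : ∃ r, Edge s T q r := by
  obtain ⟨r, hr, hrq, hl⟩ := next_vertex hg hs h.hq h.hp h.hpq.symm
    (fun w hw a b => h.left w hw b a)
  exact ⟨r, h.hq, hr, hrq.symm, hl⟩

lemma Edge.nonneg (h : Edge s T p q) {t : ℝ × ℝ} (ht : t ∈ T) : 0 ≤ D s p q t := by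
  by_cases h1 : t = p
  · rw [h1]; simp
  by_cases h2 : t = q
  · rw [h2]; simp
  exact (h.left t ht h1 h2).le

/-- endpoints of invisible edges stay extreme -/
lemma Edge.ins1 [DecidableEq (ℝ × ℝ)] (h : Edge s T p q) (hz : 0 < D s p q z) :
    Edge s (insert z T) p q :=
  ⟨Finset.mem_insert_of_mem h.hp, Finset.mem_insert_of_mem h.hq, h.hpq, fun t ht h1 h2 => by
    rcases Finset.mem_insert.1 ht with rfl | ht
    · exact hz
    · exact h.left t ht h1 h2⟩

end edge

/-- a point left of both edges at a convex corner `p q r`: linear functionals -/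
lemma corner {s : ℝ} {p q r z : ℝ × ℝ} (f : (ℝ × ℝ) →ₗ[ℝ] ℝ) (h : 0 < D s p q r)
    (h1 : 0 < D s p q z) (h2 : 0 < D s q r z) (hp : f q ≤ f p) (hr : f q ≤ f r) : f q ≤ f z := by
  have hid : (D s p q r) • (z - q) = (D s q r z) • (p - q) + (D s p q z) • (r - q) := by
    apply Prod.ext
    · simp only [Prod.smul_fst, Prod.fst_sub, Prod.fst_add, smul_eq_mul, D, dt]; ring
    · simp only [Prod.smul_snd, Prod.snd_sub, Prod.snd_add, smul_eq_mul, D, dt]; ring
  have h3 : D s p q r * (f z - f q) = D s q r z * (f p - f q) + D s p q z * (f r - f q) := by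
    have := congrArg f hid
    simpa [map_smul, map_sub, map_add] using this
  have h4 : 0 ≤ D s p q r * (f z - f q) := by
    rw [h3]
    exact add_nonneg (mul_nonneg h2.le (by linarith)) (mul_nonneg h1.le (by linarith))
  by_contra hcon
  have := mul_neg_of_pos_of_neg h (by linarith : f z - f q < 0)
  linarith

/-- separation of a point from the hull of a finite set -/
lemma exists_sep {S : Set (ℝ × ℝ)} (hS : S.Finite) {z : ℝ × ℝ} (hz : z ∉ convexHull ℝ S) :
    ∃ f : (ℝ × ℝ) →ₗ[ℝ] ℝ, ∀ y ∈ S, f z < f y := by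
  obtain ⟨f, u, hf1, hf2⟩ := geometric_hahn_banach_point_closed (convex_convexHull ℝ S)
    (hS.isClosed_convexHull ℝ) hz
  exact ⟨f.toLinearMap, fun y hy => hf1.trans (hf2 y (subset_convexHull ℝ S hy))⟩

/-- `v` walks around the hull of `T`, with `k` vertices -/
structure Poly (s : ℝ) (T : Finset (ℝ × ℝ)) (k : ℕ) (v : ℕ → ℝ × ℝ) : Prop where
  edge : ∀ i, Edge s T (v i) (v (i + 1))
  per : ∀ i, v (i + k) = v i
  inj : ∀ i j, i < j → j < i + k → v i ≠ v j
  kpos : 0 < k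
  ext : ∀ z, ExtP T z → ∃ i < k, z = v i

theorem exists_poly {s : ℝ} {T : Finset (ℝ × ℝ)} (hg : Gen T) (hs : s ≠ 0)
    {p q : ℝ × ℝ} (h : Edge s T p q) :
    ∃ k v, Poly s T k v := by
  classical
  -- the walk
  let nx : {e : (ℝ × ℝ) × (ℝ × ℝ) // Edge s T e.1 e.2} → {e : (ℝ × ℝ) × (ℝ × ℝ) // Edge s T e.1 e.2} :=
    fun e => ⟨(e.1.2, (e.2.next hg hs).choose), (e.2.next hg hs).choose_spec⟩
  let e : ℕ → {e : (ℝ × ℝ) × (ℝ × ℝ) // Edge s T e.1 e.2} := fun n => nx^[n] ⟨(p, q), h⟩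
  let v : ℕ → ℝ × ℝ := fun n => (e n).1.1
  have hstep : ∀ n, e (n + 1) = nx (e n) := fun n => Function.iterate_succ_apply' nx n _
  have hv1 : ∀ n, (e n).1.2 = v (n + 1) := by
    intro n
    show (e n).1.2 = (e (n + 1)).1.1
    rw [hstep]
  have hE : ∀ n, Edge s T (v n) (v (n + 1)) := by
    intro n
    have := (e n).2
    rw [hv1 n] at this
    exact this
  clear_value v
  clear hv1 hstep e nx
  -- determinism
  have back : ∀ d i j, v (i + d) = v (j + d) → v i = v j := by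
    intro d
    induction d with
    | zero => intro i j h; simpa using h
    | succ d ih =>
      intro i j h
      apply ih
      have h1 := hE (i + d)
      have h2 := hE (j + d)
      have h3 : v (i + d + 1) = v (j + d + 1) := h
      rw [h3] at h1
      exact h1.uniq' h2
  have fwd : ∀ d i j, v i = v j → v (i + d) = v (j + d) := by
    intro d
    induction d with
    | zero => intro i j h; simpa using h
    | succ d ih =>
      intro i j h
      have h0 := ih i j h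
      have h1 := hE (i + d)
      have h2 := hE (j + d)
      rw [h0] at h1
      exact h1.uniq h2
  have hper : ∃ k, 0 < k ∧ v k = v 0 := by
    obtain ⟨i, -, j, -, hij, hv⟩ : ∃ i ∈ Finset.range (T.card + 1), ∃ j ∈ Finset.range (T.card + 1),
        i ≠ j ∧ v i = v j :=
      Finset.exists_ne_map_eq_of_card_lt_of_maps_to (t := T)
        (by simp) (fun i _ => (hE i).hp)
    rcases lt_or_gt_of_ne hij with h1 | h1
    · exact ⟨j - i, by omega, (back i 0 (j - i) (by
        rw [Nat.zero_add, Nat.sub_add_cancel h1.le]; exact hv)).symm⟩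
    · exact ⟨i - j, by omega, (back j 0 (i - j) (by
        rw [Nat.zero_add, Nat.sub_add_cancel h1.le]; exact hv.symm)).symm⟩
  let k := Nat.find hper
  have hk : 0 < k ∧ v k = v 0 := Nat.find_spec hper
  have hmin : ∀ j, 0 < j → j < k → v j ≠ v 0 := fun j h0 hj he => Nat.find_min hper hj ⟨h0, he⟩
  have hperiod : ∀ i, v (i + k) = v i := by
    intro i
    have := fwd i k 0 hk.2
    rwa [Nat.zero_add, Nat.add_comm k i] at this
  refine ⟨k, v, hE, hperiod, ?_, hk.1, ?_⟩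
  · intro i j hij hjk he
    exact hmin (j - i) (by omega) (by omega) (back i (j - i) 0 (by
      rw [Nat.zero_add, Nat.sub_add_cancel hij.le]; exact he.symm))
  · intro z hz
    by_contra hcon
    push Not at hcon
    have hzv : ∀ i, z ≠ v i := by
      intro i he
      have : v i = v (i % k) := by
        conv_lhs => rw [← Nat.mod_add_div i k]
        generalize i / k = d
        induction d with
        | zero => simp
        | succ d ih => rw [Nat.mul_succ, ← Nat.add_assoc, hperiod]; exact ih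
      exact hcon (i % k) (Nat.mod_lt _ hk.1) (he.trans this)
    -- the hull of the cycle
    set W : Finset (ℝ × ℝ) := (Finset.range k).image v with hW
    have hWT : (W : Set (ℝ × ℝ)) ⊆ (T : Set (ℝ × ℝ)) := by
      intro x hx
      rw [hW] at hx
      simp only [Finset.coe_image, Set.mem_image] at hx
      obtain ⟨i, -, rfl⟩ := hx
      exact (hE i).hp
    by_cases hzW : z ∈ convexHull ℝ (W : Set (ℝ × ℝ))
    · have h1 : z ∈ Set.extremePoints ℝ (convexHull ℝ (W : Set (ℝ × ℝ))) :=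
        inter_extremePoints_subset_extremePoints_of_subset (convexHull_mono hWT) ⟨hzW, hz⟩
      have h2 : z ∈ (W : Set (ℝ × ℝ)) := extremePoints_convexHull_subset h1
      rw [hW] at h2
      simp only [Finset.coe_image, Set.mem_image] at h2
      obtain ⟨i, -, hi⟩ := h2
      exact hzv i hi.symm
    · obtain ⟨f, hf⟩ := exists_sep W.finite_toSet hzW
      have hne : (Finset.range k).Nonempty := Finset.nonempty_range_iff.2 hk.1.ne'
      obtain ⟨j, hj, hjmin⟩ := (Finset.range k).exists_min_image (fun i => f (v i)) hne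
      have hjmin' : ∀ i, f (v j) ≤ f (v i) := by
        intro i
        have : v i = v (i % k) := by
          conv_lhs => rw [← Nat.mod_add_div i k]
          generalize i / k = d
          induction d with
          | zero => simp
          | succ d ih => rw [Nat.mul_succ, ← Nat.add_assoc, hperiod]; exact ih
        rw [this]
        exact hjmin _ (Finset.mem_range.2 (Nat.mod_lt _ hk.1))
      have hfz : f z < f (v j) := hf _ (by
        rw [hW]; exact_mod_cast Finset.mem_image_of_mem v hj)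
      -- the corner at `v (j + k)`
      obtain ⟨l, hl⟩ : ∃ l, j + k = l + 1 := ⟨j + k - 1, by omega⟩
      have hvl : v (l + 1) = v j := by rw [← hl, hperiod]
      have hzT : z ∈ T := hz.mem
      have e1 := (hE l).left z hzT (hzv _) (hzv _)
      have e2 := (hE (l + 1)).left z hzT (hzv _) (hzv _)
      have hne2 : v l ≠ v (l + 1 + 1) := by
        intro he
        have h3 := (hE (l + 1)).left z hzT (hzv _) (hzv _)
        rw [← he, D_swap] at h3
        linarith
      have e3 := (hE l).left (v (l + 1 + 1)) (hE (l + 1)).hq hne2.symm (hE (l + 1)).hpq.symm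
      have := corner f e3 e1 e2 (by rw [hvl]; exact hjmin' _) (by rw [hvl]; exact hjmin' _)
      rw [hvl] at this
      linarith

/-- a first hull edge -/
lemma exists_Edge {s : ℝ} {T : Finset (ℝ × ℝ)} (hg : Gen T) (hs : s ≠ 0) (hc : 2 ≤ T.card) :
    ∃ p q, Edge s T p q := by
  obtain ⟨x, hx, y, hy, hxy, h⟩ := exists_edge hg hc
  rcases lt_or_gt_of_ne hs with h1 | h1
  · refine ⟨y, x, hy, hx, hxy.symm, fun t ht ht1 ht2 => ?_⟩
    have h2 := h t ht ht2 ht1
    have h3 : D s y x t = (-s) * D 1 x y t := by simp only [D, dt]; ring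
    rw [h3]
    exact mul_pos (by linarith) h2
  · refine ⟨x, y, hx, hy, hxy, fun t ht ht1 ht2 => ?_⟩
    have h2 := h t ht ht1 ht2
    have h3 : D s x y t = s * D 1 x y t := by simp only [D, dt]; ring
    rw [h3]
    exact mul_pos h1 h2

section family

variable {s : ℝ} {m k : ℕ} {P T : Finset (ℝ × ℝ)} {v : ℕ → ℝ × ℝ}

lemma InF.exists_poly (hg : Gen P) (hs : s ≠ 0) (hT : InF m P T) :
    ∃ k v, Poly s T k v ∧ 5 ≤ k := by
  classical
  have hgT := hg.mono hT.sub
  have hc : 5 ≤ T.card := by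
    refine hT.fat.trans ?_
    rw [← Set.ncard_coe_finset]
    exact Set.ncard_le_ncard extremePoints_convexHull_subset T.finite_toSet
  obtain ⟨p, q, hpq⟩ := exists_Edge hgT hs (by omega)
  obtain ⟨k, v, hv⟩ := Tri.exists_poly hgT hs hpq
  refine ⟨k, v, hv, ?_⟩
  refine hT.fat.trans ?_
  calc (Set.extremePoints ℝ (convexHull ℝ (T : Set (ℝ × ℝ)))).ncard
      ≤ (((Finset.range k).image v : Finset (ℝ × ℝ)) : Set (ℝ × ℝ)).ncard := by
        apply Set.ncard_le_ncard _ (Finset.finite_toSet _)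
        intro z hz
        obtain ⟨i, hi, rfl⟩ := hv.ext z hz
        exact_mod_cast Finset.mem_image_of_mem v (Finset.mem_range.2 hi)
    _ = ((Finset.range k).image v).card := Set.ncard_coe_finset _
    _ ≤ (Finset.range k).card := Finset.card_image_le
    _ = k := Finset.card_range k

/-- two edges of `T` with four endpoints are not both invisible -/
lemma nonadj4 (ht : Thin m P) (hT : InF m P T) {z p q p' q' : ℝ × ℝ} (hz : z ∈ P) (hzT : z ∉ T)
    (h : Edge s T p q) (h' : Edge s T p' q') (hnd : [p, q, p', q'].Nodup)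
    (h1 : 0 < D s p q z) (h2 : 0 < D s p' q' z) : False := by
  classical
  have hsub : insert z T ⊆ P := Finset.insert_subset hz hT.sub
  have hcard : (insert z T).card = m + 1 := by rw [Finset.card_insert_of_notMem hzT, hT.card]
  refine ht.five hsub (by omega) (hT.closed z hz hzT) (h.ins1 h1).ext1 (h.ins1 h1).ext2
    (h'.ins1 h2).ext1 (h'.ins1 h2).ext2 ?_
  rw [List.nodup_cons]
  refine ⟨?_, hnd⟩
  simp only [List.mem_cons, List.not_mem_nil, or_false, not_or]
  refine ⟨?_, ?_, ?_, ?_⟩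
  · rintro rfl; exact hzT h.hp
  · rintro rfl; exact hzT h.hq
  · rintro rfl; exact hzT h'.hp
  · rintro rfl; exact hzT h'.hq

lemma Poly.nonadj (hv : Poly s T k v) (ht : Thin m P) (hT : InF m P T) {z : ℝ × ℝ} (hz : z ∈ P)
    (hzT : z ∉ T) {i j : ℕ} (hij : i + 2 ≤ j) (hji : j + 2 ≤ i + k)
    (h1 : 0 < D s (v i) (v (i + 1)) z) (h2 : 0 < D s (v j) (v (j + 1)) z) : False := by
  refine nonadj4 ht hT hz hzT (hv.edge i) (hv.edge j) ?_ h1 h2
  have a1 := hv.inj i (i + 1) (by omega) (by omega)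
  have a2 := hv.inj i j (by omega) (by omega)
  have a3 := hv.inj i (j + 1) (by omega) (by omega)
  have a4 := hv.inj (i + 1) j (by omega) (by omega)
  have a5 := hv.inj (i + 1) (j + 1) (by omega) (by omega)
  have a6 := hv.inj j (j + 1) (by omega) (by omega)
  simp [a1, a2, a3, a4, a5, a6]

/-- a point outside `T` is not on the line of an edge -/
lemma Edge.ne0 (hg : Gen P) (hs : s ≠ 0) (hTP : T ⊆ P) {z p q : ℝ × ℝ} (hz : z ∈ P)
    (hzT : z ∉ T) (h : Edge s T p q) : D s p q z ≠ 0 :=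
  hg.D_ne hs (hTP h.hp) (hTP h.hq) hz h.hpq (fun he => hzT (he ▸ h.hp))
    (fun he => hzT (he ▸ h.hq))

/-- (t2) two points outside `T` are strictly right of a common edge -/
theorem InF.t2 (hg : Gen P) (hs : s ≠ 0) (ht : Thin m P) (hT : InF m P T) {z z' : ℝ × ℝ}
    (hz : z ∈ P) (hzT : z ∉ T) (hz' : z' ∈ P) (hzT' : z' ∉ T) :
    ∃ p q, Edge s T p q ∧ D s p q z < 0 ∧ D s p q z' < 0 := by
  obtain ⟨k, v, hv, hk⟩ := InF.exists_poly (s := s) hg hs hT
  by_contra hcon
  have key : ∀ i, 0 < D s (v i) (v (i + 1)) z ∨ 0 < D s (v i) (v (i + 1)) z' := by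
    intro i
    by_contra h
    push Not at h
    apply hcon
    exact ⟨v i, v (i + 1), hv.edge i, lt_of_le_of_ne h.1 ((hv.edge i).ne0 hg hs hT.sub hz hzT),
      lt_of_le_of_ne h.2 ((hv.edge i).ne0 hg hs hT.sub hz' hzT')⟩
  have n : ∀ i j, i + 2 ≤ j → j + 2 ≤ i + k → 0 < D s (v i) (v (i + 1)) z →
      0 < D s (v j) (v (j + 1)) z → False := fun i j h1 h2 => hv.nonadj ht hT hz hzT h1 h2
  have n' : ∀ i j, i + 2 ≤ j → j + 2 ≤ i + k → 0 < D s (v i) (v (i + 1)) z' →
      0 < D s (v j) (v (j + 1)) z' → False := fun i j h1 h2 => hv.nonadj ht hT hz' hzT' h1 h2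
  rcases key 0 with h0 | h0
  · rcases key 2 with h2 | h2
    · exact n 0 2 (by omega) (by omega) h0 h2
    rcases key 3 with h3 | h3
    · exact n 0 3 (by omega) (by omega) h0 h3
    rcases key 4 with h4 | h4
    · rcases key 1 with h1 | h1
      · exact n 1 4 (by omega) (by omega) h1 h4
      · exact n' 1 3 (by omega) (by omega) h1 h3
    · exact n' 2 4 (by omega) (by omega) h2 h4
  · rcases key 2 with h2 | h2
    swap
    · exact n' 0 2 (by omega) (by omega) h0 h2
    rcases key 3 with h3 | h3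
    swap
    · exact n' 0 3 (by omega) (by omega) h0 h3
    rcases key 4 with h4 | h4
    · exact n 2 4 (by omega) (by omega) h2 h4
    · rcases key 1 with h1 | h1
      · exact n 1 3 (by omega) (by omega) h1 h3
      · exact n' 1 4 (by omega) (by omega) h1 h4

/-- (t3) `T` inside the triangle `x1 x2 x3` (strictly): every edge is invisible from some `xi` -/
theorem Edge.t3 {p q x1 x2 x3 : ℝ × ℝ} (h : Edge s T p q) (hc : ∃ t ∈ T, t ≠ p ∧ t ≠ q)
    (h12 : ∀ t ∈ T, 0 < D s x1 x2 t) (h23 : ∀ t ∈ T, 0 < D s x2 x3 t)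
    (h31 : ∀ t ∈ T, 0 < D s x3 x1 t) :
    0 < D s p q x1 ∨ 0 < D s p q x2 ∨ 0 < D s p q x3 := by
  obtain ⟨t, ht, htp, htq⟩ := hc
  by_contra hcon
  push Not at hcon
  have hid : D s p q t * (D s x1 x2 t + D s x2 x3 t + D s x3 x1 t) =
      D s p q x1 * D s x2 x3 t + D s p q x2 * D s x3 x1 t + D s p q x3 * D s x1 x2 t := by
    simp only [D, dt]; ring
  have h1 : 0 < D s p q t * (D s x1 x2 t + D s x2 x3 t + D s x3 x1 t) :=
    mul_pos (h.left t ht htp htq) (by linarith [h12 t ht, h23 t ht, h31 t ht])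
  have e1 := mul_nonneg (sub_nonneg.2 hcon.1) (h23 t ht).le
  have e2 := mul_nonneg (sub_nonneg.2 hcon.2.1) (h31 t ht).le
  have e3 := mul_nonneg (sub_nonneg.2 hcon.2.2) (h12 t ht).le
  nlinarith

set_option maxRecDepth 100000 in
lemma seven_decide : ∀ I ∈ (Finset.range 7).powerset,
    (∀ i ∈ I, ∀ j ∈ I, ¬ (i + 2 ≤ j ∧ j + 2 ≤ i + 7)) → I.card ≤ 2 := by
  decide

/-- `T` has at most six hull vertices if `a, b, c` are not in `T` -/
theorem Poly.le_six {a b c : ℝ × ℝ} (hv : Poly s T k v) (h : Setting s m P a b c)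
    (hT : InF m P T) (ha : a ∉ T) (hb : b ∉ T) (hc : c ∉ T) : k ≤ 6 := by
  classical
  by_contra hk
  push Not at hk
  set I : ℝ × ℝ → Finset ℕ := fun z =>
    (Finset.range 7).filter (fun i => 0 < D s (v i) (v (i + 1)) z) with hI
  have hcard : ∀ z ∈ P, z ∉ T → (I z).card ≤ 2 := by
    intro z hz hzT
    apply seven_decide
    · rw [Finset.mem_powerset]; exact Finset.filter_subset _ _
    · rintro i hi j hj ⟨h1, h2⟩
      rw [hI] at hi hj
      simp only [Finset.mem_filter, Finset.mem_range] at hi hj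
      exact hv.nonadj h.thin hT hz hzT h1 (by omega) hi.2 hj.2
  have hcov : Finset.range 7 ⊆ I a ∪ (I b ∪ I c) := by
    intro i hi
    have h3 := (hv.edge i).t3 (x1 := a) (x2 := b) (x3 := c)
      ⟨v (i + 2), (hv.edge (i + 2)).hp, (hv.inj i (i + 2) (by omega) (by omega)).symm,
        (hv.inj (i + 1) (i + 2) (by omega) (by omega)).symm⟩
      (fun t ht => h.conf.eab t (hT.sub ht) (fun he => ha (he ▸ ht)) (fun he => hb (he ▸ ht)))
      (fun t ht => h.conf.ebc t (hT.sub ht) (fun he => hb (he ▸ ht)) (fun he => hc (he ▸ ht)))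
      (fun t ht => h.conf.eca t (hT.sub ht) (fun he => hc (he ▸ ht)) (fun he => ha (he ▸ ht)))
    simp only [hI, Finset.mem_union, Finset.mem_filter]
    rcases h3 with h3 | h3 | h3
    · exact Or.inl ⟨hi, h3⟩
    · exact Or.inr (Or.inl ⟨hi, h3⟩)
    · exact Or.inr (Or.inr ⟨hi, h3⟩)
  have h1 := Finset.card_le_card hcov
  have h2 := Finset.card_union_le (I a) (I b ∪ I c)
  have h3 := Finset.card_union_le (I b) (I c)
  have h4 := hcard a h.conf.ha ha
  have h5 := hcard b h.conf.hb hb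
  have h6 := hcard c h.conf.hc hc
  rw [Finset.card_range] at h1
  omega

/-- `v1 .. v5` is the hull of `T` in counterclockwise order -/
structure Pent (s : ℝ) (T : Finset (ℝ × ℝ)) (v1 v2 v3 v4 v5 : ℝ × ℝ) : Prop where
  h1 : v1 ∈ T
  h2 : v2 ∈ T
  h3 : v3 ∈ T
  h4 : v4 ∈ T
  h5 : v5 ∈ T
  nd : [v1, v2, v3, v4, v5].Nodup
  e1 : ∀ t ∈ T, t ≠ v1 → t ≠ v2 → 0 < D s v1 v2 t
  e2 : ∀ t ∈ T, t ≠ v2 → t ≠ v3 → 0 < D s v2 v3 t
  e3 : ∀ t ∈ T, t ≠ v3 → t ≠ v4 → 0 < D s v3 v4 t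
  e4 : ∀ t ∈ T, t ≠ v4 → t ≠ v5 → 0 < D s v4 v5 t
  e5 : ∀ t ∈ T, t ≠ v5 → t ≠ v1 → 0 < D s v5 v1 t

/-- `v1 .. v6` is the hull of `T` in counterclockwise order -/
structure Hex (s : ℝ) (T : Finset (ℝ × ℝ)) (v1 v2 v3 v4 v5 v6 : ℝ × ℝ) : Prop where
  h1 : v1 ∈ T
  h2 : v2 ∈ T
  h3 : v3 ∈ T
  h4 : v4 ∈ T
  h5 : v5 ∈ T
  h6 : v6 ∈ T
  nd : [v1, v2, v3, v4, v5, v6].Nodup
  e1 : ∀ t ∈ T, t ≠ v1 → t ≠ v2 → 0 < D s v1 v2 t
  e2 : ∀ t ∈ T, t ≠ v2 → t ≠ v3 → 0 < D s v2 v3 t
  e3 : ∀ t ∈ T, t ≠ v3 → t ≠ v4 → 0 < D s v3 v4 t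
  e4 : ∀ t ∈ T, t ≠ v4 → t ≠ v5 → 0 < D s v4 v5 t
  e5 : ∀ t ∈ T, t ≠ v5 → t ≠ v6 → 0 < D s v5 v6 t
  e6 : ∀ t ∈ T, t ≠ v6 → t ≠ v1 → 0 < D s v6 v1 t

section pent

variable {v1 v2 v3 v4 v5 v6 z : ℝ × ℝ}

lemma Pent.rot (h : Pent s T v1 v2 v3 v4 v5) : Pent s T v2 v3 v4 v5 v1 :=
  ⟨h.h2, h.h3, h.h4, h.h5, h.h1, by
    have := h.nd
    simp only [List.nodup_cons, List.mem_cons, List.not_mem_nil, or_false, not_or,
      not_false_eq_true, List.nodup_nil, and_true] at this ⊢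
    obtain ⟨⟨a1, a2, a3, a4⟩, ⟨a5, a6, a7⟩, ⟨a8, a9⟩, a10⟩ := this
    exact ⟨⟨a5, a6, a7, Ne.symm a1⟩, ⟨a8, a9, Ne.symm a2⟩, ⟨a10, Ne.symm a3⟩, Ne.symm a4⟩,
    h.e2, h.e3, h.e4, h.e5, h.e1⟩

lemma rev_left {p q t : ℝ × ℝ} (h : 0 < D s p q t) : 0 < D (-s) q p t := by
  rw [D_neg, D_swap]; linarith

lemma Pent.refl (h : Pent s T v1 v2 v3 v4 v5) : Pent (-s) T v5 v4 v3 v2 v1 :=
  ⟨h.h5, h.h4, h.h3, h.h2, h.h1, by
    have := h.nd
    simp only [List.nodup_cons, List.mem_cons, List.not_mem_nil, or_false, not_or,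
      not_false_eq_true, List.nodup_nil, and_true] at this ⊢
    obtain ⟨⟨a1, a2, a3, a4⟩, ⟨a5, a6, a7⟩, ⟨a8, a9⟩, a10⟩ := this
    exact ⟨⟨Ne.symm a10, Ne.symm a9, Ne.symm a7, Ne.symm a4⟩,
      ⟨Ne.symm a8, Ne.symm a6, Ne.symm a3⟩, ⟨Ne.symm a5, Ne.symm a2⟩, Ne.symm a1⟩,
    fun t ht x y => rev_left (h.e4 t ht y x), fun t ht x y => rev_left (h.e3 t ht y x),
    fun t ht x y => rev_left (h.e2 t ht y x), fun t ht x y => rev_left (h.e1 t ht y x),
    fun t ht x y => rev_left (h.e5 t ht y x)⟩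

lemma Pent.E (h : Pent s T v1 v2 v3 v4 v5) : Edge s T v1 v2 :=
  ⟨h.h1, h.h2, by have := h.nd; simp at this; exact this.1.1, h.e1⟩

lemma Hex.rot (h : Hex s T v1 v2 v3 v4 v5 v6) : Hex s T v2 v3 v4 v5 v6 v1 :=
  ⟨h.h2, h.h3, h.h4, h.h5, h.h6, h.h1, by
    have := h.nd
    simp only [List.nodup_cons, List.mem_cons, List.not_mem_nil, or_false, not_or,
      not_false_eq_true, List.nodup_nil, and_true] at this ⊢
    obtain ⟨⟨a1, a2, a3, a4, a5⟩, ⟨b1, b2, b3, b4⟩, ⟨c1, c2, c3⟩, ⟨d1, d2⟩, g1⟩ := this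
    exact ⟨⟨b1, b2, b3, b4, Ne.symm a1⟩, ⟨c1, c2, c3, Ne.symm a2⟩, ⟨d1, d2, Ne.symm a3⟩,
      ⟨g1, Ne.symm a4⟩, Ne.symm a5⟩,
    h.e2, h.e3, h.e4, h.e5, h.e6, h.e1⟩

lemma Hex.refl (h : Hex s T v1 v2 v3 v4 v5 v6) : Hex (-s) T v6 v5 v4 v3 v2 v1 :=
  ⟨h.h6, h.h5, h.h4, h.h3, h.h2, h.h1, by
    have := h.nd
    simp only [List.nodup_cons, List.mem_cons, List.not_mem_nil, or_false, not_or,
      not_false_eq_true, List.nodup_nil, and_true] at this ⊢
    obtain ⟨⟨a1, a2, a3, a4, a5⟩, ⟨b1, b2, b3, b4⟩, ⟨c1, c2, c3⟩, ⟨d1, d2⟩, g1⟩ := this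
    exact ⟨⟨Ne.symm g1, Ne.symm d2, Ne.symm c3, Ne.symm b4, Ne.symm a5⟩,
      ⟨Ne.symm d1, Ne.symm c2, Ne.symm b3, Ne.symm a4⟩, ⟨Ne.symm c1, Ne.symm b2, Ne.symm a3⟩,
      ⟨Ne.symm b1, Ne.symm a2⟩, Ne.symm a1⟩,
    fun t ht x y => rev_left (h.e5 t ht y x), fun t ht x y => rev_left (h.e4 t ht y x),
    fun t ht x y => rev_left (h.e3 t ht y x), fun t ht x y => rev_left (h.e2 t ht y x),
    fun t ht x y => rev_left (h.e1 t ht y x), fun t ht x y => rev_left (h.e6 t ht y x)⟩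

lemma Hex.E (h : Hex s T v1 v2 v3 v4 v5 v6) : Edge s T v1 v2 :=
  ⟨h.h1, h.h2, by have := h.nd; simp at this; exact this.1.1, h.e1⟩

/-- (t1) nonadjacent edges 1 and 3 -/
lemma Pent.no13 (h : Pent s T v1 v2 v3 v4 v5) (ht : Thin m P) (hT : InF m P T) (hz : z ∈ P)
    (hzT : z ∉ T) (h1 : 0 < D s v1 v2 z) (h3 : 0 < D s v3 v4 z) : False := by
  refine nonadj4 ht hT hz hzT h.E h.rot.rot.E ?_ h1 h3
  have := h.nd
  simp only [List.nodup_cons, List.mem_cons, List.not_mem_nil, or_false, not_or,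
      not_false_eq_true, List.nodup_nil, and_true] at this ⊢
  tauto

lemma Hex.no13 (h : Hex s T v1 v2 v3 v4 v5 v6) (ht : Thin m P) (hT : InF m P T) (hz : z ∈ P)
    (hzT : z ∉ T) (h1 : 0 < D s v1 v2 z) (h3 : 0 < D s v3 v4 z) : False := by
  refine nonadj4 ht hT hz hzT h.E h.rot.rot.E ?_ h1 h3
  have := h.nd
  simp only [List.nodup_cons, List.mem_cons, List.not_mem_nil, or_false, not_or,
      not_false_eq_true, List.nodup_nil, and_true] at this ⊢
  tauto

lemma Hex.no14 (h : Hex s T v1 v2 v3 v4 v5 v6) (ht : Thin m P) (hT : InF m P T) (hz : z ∈ P)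
    (hzT : z ∉ T) (h1 : 0 < D s v1 v2 z) (h4 : 0 < D s v4 v5 z) : False := by
  refine nonadj4 ht hT hz hzT h.E h.rot.rot.rot.E ?_ h1 h4
  have := h.nd
  simp only [List.nodup_cons, List.mem_cons, List.not_mem_nil, or_false, not_or,
      not_false_eq_true, List.nodup_nil, and_true] at this ⊢
  tauto

/-- every point of the plane is strictly left of some edge -/
lemma Pent.some_left (h : Pent s T v1 v2 v3 v4 v5) (z : ℝ × ℝ) :
    0 < D s v1 v2 z ∨ 0 < D s v2 v3 z ∨ 0 < D s v3 v4 z ∨ 0 < D s v4 v5 z ∨ 0 < D s v5 v1 z := by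
  by_contra hcon
  push Not at hcon
  obtain ⟨c1, c2, c3, c4, c5⟩ := hcon
  have hnd := h.nd
  simp only [List.nodup_cons, List.mem_cons, List.not_mem_nil, or_false, not_or,
      not_false_eq_true, List.nodup_nil, and_true] at hnd
  have f1 := h.e1 v3 h.h3 (by tauto) (by tauto)
  have f2 := h.e3 v1 h.h1 (by tauto) (by tauto)
  have f3 := h.e4 v1 h.h1 (by tauto) (by tauto)
  have hid : D s v1 v2 z + D s v2 v3 z + D s v3 v4 z + D s v4 v5 z + D s v5 v1 z =
      D s v1 v2 v3 + D s v3 v4 v1 + D s v4 v5 v1 := by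
    simp only [D, dt]; ring
  linarith

lemma Hex.some_left (h : Hex s T v1 v2 v3 v4 v5 v6) (z : ℝ × ℝ) :
    0 < D s v1 v2 z ∨ 0 < D s v2 v3 z ∨ 0 < D s v3 v4 z ∨ 0 < D s v4 v5 z ∨
      0 < D s v5 v6 z ∨ 0 < D s v6 v1 z := by
  by_contra hcon
  push Not at hcon
  obtain ⟨c1, c2, c3, c4, c5, c6⟩ := hcon
  have hnd := h.nd
  simp only [List.nodup_cons, List.mem_cons, List.not_mem_nil, or_false, not_or,
      not_false_eq_true, List.nodup_nil, and_true] at hnd
  have f1 := h.e1 v3 h.h3 (by tauto) (by tauto)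
  have f2 := h.e3 v1 h.h1 (by tauto) (by tauto)
  have f3 := h.e4 v1 h.h1 (by tauto) (by tauto)
  have f4 := h.e5 v1 h.h1 (by tauto) (by tauto)
  have hid : D s v1 v2 z + D s v2 v3 z + D s v3 v4 z + D s v4 v5 z + D s v5 v6 z + D s v6 v1 z =
      D s v1 v2 v3 + D s v3 v4 v1 + D s v4 v5 v1 + D s v5 v6 v1 := by
    simp only [D, dt]; ring
  linarith

end pent

/-- the hull of `T` is a pentagon or a hexagon if `a, b, c` are not in `T` -/
theorem pent_or_hex {a b c : ℝ × ℝ} (h : Setting s m P a b c)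
    (hT : InF m P T) (ha : a ∉ T) (hb : b ∉ T) (hc : c ∉ T) :
    (∃ v1 v2 v3 v4 v5, Pent s T v1 v2 v3 v4 v5) ∨
      (∃ v1 v2 v3 v4 v5 v6, Hex s T v1 v2 v3 v4 v5 v6) := by
  obtain ⟨k, v, hv, hk⟩ := InF.exists_poly (s := s) h.conf.gen h.conf.hs hT
  have hk6 := hv.le_six h hT ha hb hc
  have hi : ∀ i j, i < j → j < i + k → v i ≠ v j := hv.inj
  rcases (by omega : k = 5 ∨ k = 6) with rfl | rfl
  · left
    have h0 : v 5 = v 0 := hv.per 0
    refine ⟨v 0, v 1, v 2, v 3, v 4, (hv.edge 0).hp, (hv.edge 1).hp, (hv.edge 2).hp,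
      (hv.edge 3).hp, (hv.edge 4).hp, ?_, (hv.edge 0).left, (hv.edge 1).left, (hv.edge 2).left,
      (hv.edge 3).left, ?_⟩
    · have a1 := hi 0 1 (by omega) (by omega)
      have a2 := hi 0 2 (by omega) (by omega)
      have a3 := hi 0 3 (by omega) (by omega)
      have a4 := hi 0 4 (by omega) (by omega)
      have a5 := hi 1 2 (by omega) (by omega)
      have a6 := hi 1 3 (by omega) (by omega)
      have a7 := hi 1 4 (by omega) (by omega)
      have a8 := hi 2 3 (by omega) (by omega)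
      have a9 := hi 2 4 (by omega) (by omega)
      have a10 := hi 3 4 (by omega) (by omega)
      simp [a1, a2, a3, a4, a5, a6, a7, a8, a9, a10]
    · have := (hv.edge 4).left
      rw [h0] at this
      exact this
  · right
    have h0 : v 6 = v 0 := hv.per 0
    refine ⟨v 0, v 1, v 2, v 3, v 4, v 5, (hv.edge 0).hp, (hv.edge 1).hp, (hv.edge 2).hp,
      (hv.edge 3).hp, (hv.edge 4).hp, (hv.edge 5).hp, ?_, (hv.edge 0).left, (hv.edge 1).left,
      (hv.edge 2).left, (hv.edge 3).left, (hv.edge 4).left, ?_⟩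
    · have a1 := hi 0 1 (by omega) (by omega)
      have a2 := hi 0 2 (by omega) (by omega)
      have a3 := hi 0 3 (by omega) (by omega)
      have a4 := hi 0 4 (by omega) (by omega)
      have a5 := hi 1 2 (by omega) (by omega)
      have a6 := hi 1 3 (by omega) (by omega)
      have a7 := hi 1 4 (by omega) (by omega)
      have a8 := hi 2 3 (by omega) (by omega)
      have a9 := hi 2 4 (by omega) (by omega)
      have a10 := hi 3 4 (by omega) (by omega)
      have b1 := hi 0 5 (by omega) (by omega)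
      have b2 := hi 1 5 (by omega) (by omega)
      have b3 := hi 2 5 (by omega) (by omega)
      have b4 := hi 3 5 (by omega) (by omega)
      have b5 := hi 4 5 (by omega) (by omega)
      simp [a1, a2, a3, a4, a5, a6, a7, a8, a9, a10, b1, b2, b3, b4, b5]
    · have := (hv.edge 5).left
      rw [h0] at this
      exact this

end family

end Pool.Agent.G5.Tri
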