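import Pool.Agent.Lib_helper61.G5T.Exist

/-!
# MP_022ed3_co: induction on `m` and the final statement
-/

set_option autoImplicit false

namespace Pool.Agent.G5.Tri

open Pool.Agent.G5.Lower Pool.Agent.G5.Planar Pool.Agent.G5.Core Pool.Agent.G5.Quad
  Pool.Agent.G5.Frame

/-- the step for the triangular hull, as a proposition -/
def StepFalse : Prop :=
  ∀ (s : ℝ) (m : ℕ) (P : Finset (ℝ × ℝ)) (a b c : ℝ × ℝ), Setting s m P a b c →
    (∀ Q : Finset (ℝ × ℝ), Gen Q → Q.card = 2 * (m - 1) + 1 → ¬ Thin (m - 1) Q) → False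

lemma thin_four_false {P : Finset (ℝ × ℝ)} (hg : Gen P) (hP : P.card = 9) : ¬ Thin 4 P := by
  intro ht
  obtain ⟨S, hS, hSc, h5⟩ := Nine.nine P hP hg
  have := ht S hS (by omega)
  omega

/-- `2 m + 1` points in general position are not thin -/
theorem not_thin (hstep : StepFalse) : ∀ (m : ℕ), 4 ≤ m → ∀ P : Finset (ℝ × ℝ), Gen P →
    P.card = 2 * m + 1 → ¬ Thin m P := by
  intro m hm
  induction m, hm using Nat.le_induction with
  | base => intro P hg hP; exact thin_four_false hg (by omega)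
  | succ m hm ih =>
    intro P hg hP ht
    rcases hull_cases hg (by omega) (ht P (Finset.Subset.refl P) (by omega)) with
      ⟨a, b, c, h⟩ | ⟨a, b, c, d, h⟩
    · exact hstep 1 (m + 1) P a b c ⟨h, ht, hP, by omega⟩ (fun Q hQ hQc => by
        rw [Nat.add_sub_cancel] at hQc ⊢
        exact ih Q hQ hQc)
    · exact quad_false h ht hP (by omega)

/-- the statement -/
theorem main_of_step (hstep : StepFalse) :
    ∀ n : ℕ, 5 ≤ n →
      IsLeast
        {N : ℕ | ∀ A : Finset (ℝ × ℝ), A.card = N →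
            (∀ a ∈ A, ∀ b ∈ A, ∀ c ∈ A, a ≠ b → a ≠ c → b ≠ c →
              ¬ Collinear ℝ ({a, b, c} : Set (ℝ × ℝ))) →
            ∃ S ⊆ A, S.card = n ∧
              5 ≤ (Set.extremePoints ℝ (convexHull ℝ (S : Set (ℝ × ℝ)))).ncard}
        (2 * n - 1) :=
  main_of_tri (fun m P _ _ _ hm ht hP h => not_thin hstep m hm P h.gen hP ht)

end Pool.Agent.G5.Tri
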