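import Pool.Agent.Lib_helper61.G5T.Poly
import Pool.Agent.Lib_helper1.G5T.Tools

/-!
# MP_022ed3_co, triangular hull: TYPES part 1, the classes `A`, `B`, `C`
-/

set_option autoImplicit false

namespace Pool.Agent.G5.Tri

open Pool.Agent.G5.Lower Pool.Agent.G5.Planar Pool.Agent.G5.Core Pool.Agent.G5.Quad
  Pool.Agent.G5.Frame

section cls

variable {s : ℝ} {m : ℕ} {P T : Finset (ℝ × ℝ)} {a b c z t t' p q : ℝ × ℝ}

lemma ranged_in (h : Setting s m P a b c) (hT : InF m P T) (ha : a ∉ T) (hz : z ∈ P)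
    (hzT : z ∉ T) (ht : t ∈ T) (ht' : t' ∈ T) (h1 : 0 < D s a t z) (h2 : 0 < D s a z t') :
    0 < D s a t t' ∧ 0 < D s t t' z := by
  have hc := h.conf
  have hat : 0 < D s a t t' := hc.tr (hT.sub ht) hz (hT.sub ht') h1 h2
  refine ⟨hat, ?_⟩
  have hne : D s t t' z ≠ 0 := hc.gen.D_ne hc.hs (hT.sub ht) (hT.sub ht') hz
    (D_ne hat.ne').2.2 (D_ne h1.ne').2.2 (D_ne h2.ne').2.2.symm
  by_contra hcon
  have hneg : D s t t' z < 0 := lt_of_le_of_ne (not_lt.1 hcon) hne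
  obtain ⟨p, q, he, hpa, hpz⟩ := InF.t2 hc.gen hc.hs h.thin hT hc.ha ha hz hzT
  have hid : - D s t t' z * D s p q a + D s a t t' * D s p q z =
      D s a z t' * D s p q t + D s a t z * D s p q t' := by
    simp only [D, dt]; ring
  have e1 := mul_neg_of_pos_of_neg (by linarith : 0 < - D s t t' z) hpa
  have e2 := mul_neg_of_pos_of_neg hat hpz
  have e3 := mul_nonneg h2.le (he.nonneg ht)
  have e4 := mul_nonneg h1.le (he.nonneg ht')
  linarith

lemma ranged_inv (ht : t ∈ T) (ht' : t' ∈ T) (h1 : 0 < D s a t z) (h2 : 0 < D s a z t')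
    (h3 : 0 < D s a t t') (h4 : 0 < D s t t' z) (he : Edge s T p q) (hpa : 0 < D s p q a) :
    0 < D s p q z := by
  have hid : D s a t t' * D s p q z = D s p q a * D s t t' z + D s p q t * D s a z t' +
      D s p q t' * D s a t z := by
    simp only [D, dt]; ring
  have e1 := mul_pos hpa h4
  have e3 := mul_nonneg (he.nonneg ht) h2.le
  have e4 := mul_nonneg (he.nonneg ht') h1.le
  have : 0 < D s a t t' * D s p q z := by linarith
  exact (pos_iff_pos_of_mul_pos this).1 h3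

/-- `T` has points on both sides of the line `a z` -/
def Rg (s : ℝ) (T : Finset (ℝ × ℝ)) (a z : ℝ × ℝ) : Prop :=
  ∃ t ∈ T, ∃ t' ∈ T, 0 < D s a t z ∧ 0 < D s a z t'

lemma Rg.inv (h : Setting s m P a b c) (hT : InF m P T) (ha : a ∉ T) (hz : z ∈ P)
    (hzT : z ∉ T) (hr : Rg s T a z) (he : Edge s T p q) (hpa : 0 < D s p q a) :
    0 < D s p q z := by
  obtain ⟨t, ht, t', ht', h1, h2⟩ := hr
  obtain ⟨h3, h4⟩ := ranged_in h hT ha hz hzT ht ht' h1 h2
  exact ranged_inv ht ht' h1 h2 h3 h4 he hpa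

lemma third (h : Setting s m P a b c) (hT : InF m P T) (ha : a ∉ T) (hb : b ∉ T) (hc : c ∉ T)
    (he : Edge s T p q) : 0 < D s p q a ∨ 0 < D s p q b ∨ 0 < D s p q c := by
  apply he.t3
  · by_contra hcon
    push Not at hcon
    have : T ⊆ {p, q} := by
      intro w hw
      simp only [Finset.mem_insert, Finset.mem_singleton]
      by_cases h : w = p
      · exact Or.inl h
      · exact Or.inr (hcon w hw h)
    have h1 := Finset.card_le_card this
    have h2 := Finset.card_le_two (a := p) (b := q)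
    have h3 := hT.card
    have h4 := h.hm
    omega
  · exact fun t ht => h.conf.eab t (hT.sub ht) (fun he => ha (he ▸ ht)) (fun he => hb (he ▸ ht))
  · exact fun t ht => h.conf.ebc t (hT.sub ht) (fun he => hb (he ▸ ht)) (fun he => hc (he ▸ ht))
  · exact fun t ht => h.conf.eca t (hT.sub ht) (fun he => hc (he ▸ ht)) (fun he => ha (he ▸ ht))

lemma two_ranges_false (h : Setting s m P a b c) (hT : InF m P T) (ha : a ∉ T) (hb : b ∉ T)
    (hc : c ∉ T) (hz : z ∈ P) (hzT : z ∉ T) (h1 : Rg s T a z) (h2 : Rg s T b z) : False := by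
  obtain ⟨p, q, he, hpz, hpc⟩ := InF.t2 h.conf.gen h.conf.hs h.thin hT hz hzT h.conf.hc hc
  rcases third h hT ha hb hc he with h3 | h3 | h3
  · have := h1.inv h hT ha hz hzT he h3
    linarith
  · have := h2.inv h.rot hT hb hz hzT he h3
    linarith
  · linarith

lemma not_Rg_pos (h : Setting s m P a b c) (hT : InF m P T) (ha : a ∉ T) (hz : z ∈ P)
    (hza : z ≠ a) (hzT : z ∉ T) (hr : ¬ Rg s T a z) (ht : t ∈ T) (h1 : 0 < D s a t z) :
    ∀ t ∈ T, 0 < D s a t z := by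
  intro t' ht'
  by_contra hcon
  have hne : D s a t' z ≠ 0 := h.conf.gen.D_ne h.conf.hs h.conf.ha (hT.sub ht') hz
    (fun he => ha (he ▸ ht')) hza.symm (fun he => hzT (he ▸ ht'))
  exact hr ⟨t, ht, t', ht', h1, ns' (lt_of_le_of_ne (not_lt.1 hcon) hne)⟩

lemma not_Rg_neg (h : Setting s m P a b c) (hT : InF m P T) (ha : a ∉ T) (hz : z ∈ P)
    (hza : z ≠ a) (hzT : z ∉ T) (hr : ¬ Rg s T a z) (ht : t ∈ T) (h1 : D s a t z < 0) :
    ∀ t ∈ T, D s a t z < 0 := by
  intro t' ht'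
  by_contra hcon
  have hne : D s a t' z ≠ 0 := h.conf.gen.D_ne h.conf.hs h.conf.ha (hT.sub ht') hz
    (fun he => ha (he ▸ ht')) hza.symm (fun he => hzT (he ▸ ht'))
  exact hr ⟨t', ht', t, ht, lt_of_le_of_ne (not_lt.1 hcon) hne.symm, ns' h1⟩

lemma one_range (h : Setting s m P a b c) (hT : InF m P T) (ha : a ∉ T) (hb : b ∉ T)
    (hc : c ∉ T) (hz : z ∈ P) (hza : z ≠ a) (hzb : z ≠ b) (hzc : z ≠ c)
    (hzT : z ∉ T) (h1 : Rg s T a z) (h2 : ¬ Rg s T b z) (h3 : ¬ Rg s T c z) :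
    ∀ t ∈ T, 0 < D s b t z ∧ D s c t z < 0 := by
  obtain ⟨t, ht, t', ht', e1, e2⟩ := h1
  obtain ⟨e3, e4⟩ := ranged_in h hT ha hz hzT ht ht' e1 e2
  have hC := h.conf
  have hbz : 0 < D s b z a := p1 (hC.eab z hz hza hzb)
  have hcz : D s c z a < 0 := ps' (hC.eca z hz hzc hza)
  have neb : ∀ w ∈ T, D s b w z ≠ 0 := fun w hw => hC.gen.D_ne hC.hs hC.hb (hT.sub hw) hz
    (fun he => hb (he ▸ hw)) hzb.symm (fun he => hzT (he ▸ hw))
  have nec : ∀ w ∈ T, D s c w z ≠ 0 := fun w hw => hC.gen.D_ne hC.hs hC.hc (hT.sub hw) hz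
    (fun he => hc (he ▸ hw)) hzc.symm (fun he => hzT (he ▸ hw))
  have hB : ∃ w ∈ T, 0 < D s b w z := by
    by_contra hcon
    push Not at hcon
    have f1 := lt_of_le_of_ne (hcon t ht) (neb t ht)
    have f2 := lt_of_le_of_ne (hcon t' ht') (neb t' ht')
    have hid : D s t t' z * D s b z a - D s a z t' * D s b t z - D s a t z * D s b t' z = 0 := by
      simp only [D, dt]; ring
    have g1 := mul_pos e4 hbz
    have g2 := mul_neg_of_pos_of_neg e2 f1
    have g3 := mul_neg_of_pos_of_neg e1 f2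
    linarith
  have hCc : ∃ w ∈ T, D s c w z < 0 := by
    by_contra hcon
    push Not at hcon
    have f1 := lt_of_le_of_ne (hcon t ht) (nec t ht).symm
    have f2 := lt_of_le_of_ne (hcon t' ht') (nec t' ht').symm
    have hid : D s t t' z * D s c z a - D s a z t' * D s c t z - D s a t z * D s c t' z = 0 := by
      simp only [D, dt]; ring
    have g1 := mul_neg_of_pos_of_neg e4 hcz
    have g2 := mul_pos e2 f1
    have g3 := mul_pos e1 f2
    linarith
  obtain ⟨w, hw, hw1⟩ := hB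
  obtain ⟨w', hw', hw1'⟩ := hCc
  intro u hu
  exact ⟨not_Rg_pos h.rot hT hb hz hzb hzT h2 hw hw1 u hu,
    not_Rg_neg h.rot.rot hT hc hz hzc hzT h3 hw' hw1' u hu⟩

/-- CEVA -/
lemma ceva (h : Conf3 s P a b c) (ht : t ∈ P) (hta : t ≠ a) (htb : t ≠ b) (htc : t ≠ c) :
    ¬ (0 < D s a t z ∧ 0 < D s b t z ∧ 0 < D s c t z) ∧
      ¬ (D s a t z < 0 ∧ D s b t z < 0 ∧ D s c t z < 0) := by
  have h1 := h.eab t ht hta htb
  have h2 := h.ebc t ht htb htc
  have h3 := h.eca t ht htc hta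
  have hid : D s a t z * D s b c t + D s b t z * D s c a t + D s c t z * D s a b t = 0 := by
    simp only [D, dt]; ring
  constructor
  · rintro ⟨e1, e2, e3⟩
    have := mul_pos e1 h2
    have := mul_pos e2 h3
    have := mul_pos e3 h1
    linarith
  · rintro ⟨e1, e2, e3⟩
    have := mul_neg_of_neg_of_pos e1 h2
    have := mul_neg_of_neg_of_pos e2 h3
    have := mul_neg_of_neg_of_pos e3 h1
    linarith

lemma class_of (h : Setting s m P a b c) (hT : InF m P T) (ha : a ∉ T) (hb : b ∉ T)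
    (hc : c ∉ T) (hz : z ∈ P) (hzT : z ∉ T) :
    (∀ t ∈ T, 0 < D s b t z ∧ D s c t z < 0) ∨ (∀ t ∈ T, 0 < D s c t z ∧ D s a t z < 0) ∨
      (∀ t ∈ T, 0 < D s a t z ∧ D s b t z < 0) := by
  have hC := h.conf
  have ta : ∀ t ∈ T, t ≠ a := fun t ht he => ha (he ▸ ht)
  have tb : ∀ t ∈ T, t ≠ b := fun t ht he => hb (he ▸ ht)
  have tc : ∀ t ∈ T, t ≠ c := fun t ht he => hc (he ▸ ht)
  by_cases hza : z = a
  · subst hza
    left
    intro t ht
    exact ⟨by rw [D_cyc]; exact hC.eab t (hT.sub ht) (ta t ht) (tb t ht),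
      ps' (hC.eca t (hT.sub ht) (tc t ht) (ta t ht))⟩
  by_cases hzb : z = b
  · subst hzb
    right; left
    intro t ht
    exact ⟨by rw [D_cyc]; exact hC.ebc t (hT.sub ht) (tb t ht) (tc t ht),
      ps' (hC.eab t (hT.sub ht) (ta t ht) (tb t ht))⟩
  by_cases hzc : z = c
  · subst hzc
    right; right
    intro t ht
    exact ⟨by rw [D_cyc]; exact hC.eca t (hT.sub ht) (tc t ht) (ta t ht),
      ps' (hC.ebc t (hT.sub ht) (tb t ht) (tc t ht))⟩
  by_cases ra : Rg s T a z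
  · have rb : ¬ Rg s T b z := fun rb => two_ranges_false h hT ha hb hc hz hzT ra rb
    have rc : ¬ Rg s T c z := fun rc => two_ranges_false h.rot.rot hT hc ha hb hz hzT rc ra
    exact Or.inl (one_range h hT ha hb hc hz hza hzb hzc hzT ra rb rc)
  by_cases rb : Rg s T b z
  · have rc : ¬ Rg s T c z := fun rc => two_ranges_false h.rot hT hb hc ha hz hzT rb rc
    exact Or.inr (Or.inl (one_range h.rot hT hb hc ha hz hzb hzc hza hzT rb rc ra))
  by_cases rc : Rg s T c z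
  · exact Or.inr (Or.inr (one_range h.rot.rot hT hc ha hb hz hzc hza hzb hzT rc ra rb))
  -- no range
  obtain ⟨t0, ht0⟩ : T.Nonempty := by
    rw [← Finset.card_pos, hT.card]
    have := h.hm
    omega
  have hcv := ceva (z := z) hC (hT.sub ht0) (ta t0 ht0) (tb t0 ht0) (tc t0 ht0)
  have zt : t0 ≠ z := fun he => hzT (he ▸ ht0)
  have na : D s a t0 z ≠ 0 := hC.gen.D_ne hC.hs hC.ha (hT.sub ht0) hz
    (ta t0 ht0).symm (Ne.symm hza) zt
  have nb : D s b t0 z ≠ 0 := hC.gen.D_ne hC.hs hC.hb (hT.sub ht0) hz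
    (tb t0 ht0).symm (Ne.symm hzb) zt
  have nc : D s c t0 z ≠ 0 := hC.gen.D_ne hC.hs hC.hc (hT.sub ht0) hz
    (tc t0 ht0).symm (Ne.symm hzc) zt
  have pa := fun h1 => not_Rg_pos h hT ha hz hza hzT ra ht0 h1
  have pb := fun h1 => not_Rg_pos h.rot hT hb hz hzb hzT rb ht0 h1
  have pc := fun h1 => not_Rg_pos h.rot.rot hT hc hz hzc hzT rc ht0 h1
  have qa := fun h1 => not_Rg_neg h hT ha hz hza hzT ra ht0 h1
  have qb := fun h1 => not_Rg_neg h.rot hT hb hz hzb hzT rb ht0 h1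
  have qc := fun h1 => not_Rg_neg h.rot.rot hT hc hz hzc hzT rc ht0 h1
  rcases lt_or_gt_of_ne na with a1 | a1
  · rcases lt_or_gt_of_ne nc with c1 | c1
    · rcases lt_or_gt_of_ne nb with b1 | b1
      · exact absurd ⟨a1, b1, c1⟩ hcv.2
      · exact Or.inl (fun t ht => ⟨pb b1 t ht, qc c1 t ht⟩)
    · exact Or.inr (Or.inl (fun t ht => ⟨pc c1 t ht, qa a1 t ht⟩))
  · rcases lt_or_gt_of_ne nb with b1 | b1
    · exact Or.inr (Or.inr (fun t ht => ⟨pa a1 t ht, qb b1 t ht⟩))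
    · rcases lt_or_gt_of_ne nc with c1 | c1
      · exact Or.inl (fun t ht => ⟨pb b1 t ht, qc c1 t ht⟩)
      · exact absurd ⟨a1, b1, c1⟩ hcv.1

/-- TYPES, part 1: the classes -/
theorem types_cls (h : Setting s m P a b c) (hT : InF m P T) (ha : a ∉ T) (hb : b ∉ T)
    (hc : c ∉ T) : ∃ A B C, Cls s m P T A B C a b c := by
  classical
  have hC := h.conf
  have ta : ∀ t ∈ T, t ≠ a := fun t ht he => ha (he ▸ ht)
  have tb : ∀ t ∈ T, t ≠ b := fun t ht he => hb (he ▸ ht)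
  have tc : ∀ t ∈ T, t ≠ c := fun t ht he => hc (he ▸ ht)
  obtain ⟨t0, ht0⟩ : T.Nonempty := by
    rw [← Finset.card_pos, hT.card]
    have := h.hm
    omega
  refine ⟨(P \ T).filter (fun z => ∀ t ∈ T, 0 < D s b t z ∧ D s c t z < 0),
    (P \ T).filter (fun z => ∀ t ∈ T, 0 < D s c t z ∧ D s a t z < 0),
    (P \ T).filter (fun z => ∀ t ∈ T, 0 < D s a t z ∧ D s b t z < 0), h, hT.sub, hT.card,
    ?_, ?_, ?_, ?_, ?_, ?_, ?_, ?_, ?_, ?_, ?_, ?_, ?_, ?_, ?_, ?_⟩
  · exact (Finset.filter_subset _ _).trans Finset.sdiff_subset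
  · exact (Finset.filter_subset _ _).trans Finset.sdiff_subset
  · exact (Finset.filter_subset _ _).trans Finset.sdiff_subset
  · rw [Finset.disjoint_left]; intro x hx h1; simp [hx] at h1
  · rw [Finset.disjoint_left]; intro x hx h1; simp [hx] at h1
  · rw [Finset.disjoint_left]; intro x hx h1; simp [hx] at h1
  · rw [Finset.disjoint_left]
    intro x hx h1
    rw [Finset.mem_filter] at hx h1
    linarith [(hx.2 t0 ht0).2, (h1.2 t0 ht0).1]
  · rw [Finset.disjoint_left]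
    intro x hx h1
    rw [Finset.mem_filter] at hx h1
    linarith [(hx.2 t0 ht0).2, (h1.2 t0 ht0).1]
  · rw [Finset.disjoint_left]
    intro x hx h1
    rw [Finset.mem_filter] at hx h1
    linarith [(hx.2 t0 ht0).2, (h1.2 t0 ht0).1]
  · intro z hz
    by_cases hzT : z ∈ T
    · exact Or.inl hzT
    have hzPT : z ∈ P \ T := Finset.mem_sdiff.2 ⟨hz, hzT⟩
    simp only [Finset.mem_filter]
    rcases class_of h hT ha hb hc hz hzT with h1 | h1 | h1
    · exact Or.inr (Or.inl ⟨hzPT, h1⟩)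
    · exact Or.inr (Or.inr (Or.inl ⟨hzPT, h1⟩))
    · exact Or.inr (Or.inr (Or.inr ⟨hzPT, h1⟩))
  · rw [Finset.mem_filter]
    refine ⟨Finset.mem_sdiff.2 ⟨hC.ha, ha⟩, fun t ht => ⟨?_, ?_⟩⟩
    · rw [D_cyc]; exact hC.eab t (hT.sub ht) (ta t ht) (tb t ht)
    · exact ps' (hC.eca t (hT.sub ht) (tc t ht) (ta t ht))
  · rw [Finset.mem_filter]
    refine ⟨Finset.mem_sdiff.2 ⟨hC.hb, hb⟩, fun t ht => ⟨?_, ?_⟩⟩
    · rw [D_cyc]; exact hC.ebc t (hT.sub ht) (tb t ht) (tc t ht)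
    · exact ps' (hC.eab t (hT.sub ht) (ta t ht) (tb t ht))
  · rw [Finset.mem_filter]
    refine ⟨Finset.mem_sdiff.2 ⟨hC.hc, hc⟩, fun t ht => ⟨?_, ?_⟩⟩
    · rw [D_cyc]; exact hC.eca t (hT.sub ht) (tc t ht) (ta t ht)
    · exact ps' (hC.ebc t (hT.sub ht) (tb t ht) (tc t ht))
  · intro z hz; rw [Finset.mem_filter] at hz; exact hz.2
  · intro z hz; rw [Finset.mem_filter] at hz; exact hz.2
  · intro z hz; rw [Finset.mem_filter] at hz; exact hz.2

end cls

end Pool.Agent.G5.Tri
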