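import Pool.Agent.Lib_helper61.G5T.Poly

/-!
# MP_022ed3_co, triangular hull: fat closed `m`-subsets avoiding two points
-/

set_option autoImplicit false

namespace Pool.Agent.G5.Tri

open Pool.Agent.G5.Lower Pool.Agent.G5.Planar Pool.Agent.G5.Core Pool.Agent.G5.Quad
  Pool.Agent.G5.Frame

/-- a fat closed `m`-subset avoiding two points, from the theorem for `m - 1` -/
theorem exists_InF {m : ℕ} {P : Finset (ℝ × ℝ)} (hg : Gen P) (ht : Thin m P)
    (hP : P.card = 2 * m + 1) (hm : 5 ≤ m)
    (ih : ∀ Q : Finset (ℝ × ℝ), Gen Q → Q.card = 2 * (m - 1) + 1 → ¬ Thin (m - 1) Q) :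
    ∀ p ∈ P, ∀ q ∈ P, ∃ T, InF m P T ∧ p ∉ T ∧ q ∉ T := by
  classical
  intro p hp q hq
  have hc1 : 2 * (m - 1) + 1 ≤ ((P.erase p).erase q).card := by
    have h1 := Finset.card_erase_of_mem hp
    have h2 := Finset.pred_card_le_card_erase (s := P.erase p) (a := q)
    omega
  obtain ⟨Q, hQ, hQc⟩ := Finset.exists_subset_card_eq hc1
  have hQP : Q ⊆ P := hQ.trans ((Finset.erase_subset _ _).trans (Finset.erase_subset _ _))
  have hnt := ih Q (hg.mono hQP) hQc
  unfold Thin at hnt
  push Not at hnt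
  obtain ⟨S, hSQ, hSc, hS5⟩ := hnt
  have hSP : S ⊆ P := hSQ.trans hQP
  -- the closure
  set T : Finset (ℝ × ℝ) := P.filter (fun x => x ∈ convexHull ℝ (S : Set (ℝ × ℝ))) with hT
  have hST : S ⊆ T := fun x hx => by
    rw [hT, Finset.mem_filter]
    exact ⟨hSP hx, subset_convexHull ℝ _ hx⟩
  have hconv : convexHull ℝ (T : Set (ℝ × ℝ)) = convexHull ℝ (S : Set (ℝ × ℝ)) := by
    apply Set.Subset.antisymm
    · apply convexHull_min _ (convex_convexHull ℝ _)
      intro x hx
      have : x ∈ T := hx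
      rw [hT, Finset.mem_filter] at this
      exact this.2
    · exact convexHull_mono (by exact_mod_cast hST)
  have hTc : T.card ≤ m := by
    by_contra hcon
    have := ht T (Finset.filter_subset _ _) (by omega)
    rw [hconv] at this
    omega
  have hSTe : S = T := Finset.eq_of_subset_of_card_le hST (by omega)
  have hSm : S.card = m := by
    rw [← hSTe] at hTc
    omega
  refine ⟨S, ⟨hSP, hSm, ?_, by omega⟩, ?_, ?_⟩
  · intro x hx hxS
    have hxc : x ∉ convexHull ℝ (S : Set (ℝ × ℝ)) := by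
      intro hcon
      apply hxS
      rw [hSTe, hT, Finset.mem_filter]
      exact ⟨hx, hcon⟩
    obtain ⟨f, hf⟩ := exists_sep S.finite_toSet hxc
    apply mem_extreme_of_lt (Finset.mem_insert_self x S) f
    intro y hy hyx
    rcases Finset.mem_insert.1 hy with h | h
    · exact absurd h hyx
    · exact hf y h
  · intro hpS
    have := hQ (hSQ hpS)
    simp at this
  · intro hqS
    have := hQ (hSQ hqS)
    simp at this

end Pool.Agent.G5.Tri
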